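import Pool.Agent.helper36.MP.SpecN

/-! # Project mp, module NM: existence of maximal natural maps -/

set_option autoImplicit false

open Complex Metric Set Filter Topology MeasureTheory

noncomputable section

namespace MPS

/-- Congruence of pole maps on a ball. -/
theorem NM_congr {k : ℕ} [NeZero k] {b g : ZMod k → ℂ} {i : ZMod k} {ψ : ℂ → ℂ} {s : ℝ} (hs : 0 < s)
    (h : ∀ u ∈ ball (0 : ℂ) s, ∃ (r : ℝ) (ψ' : ℂ → ℂ), u ∈ ball (0 : ℂ) r ∧ PN b g i ψ' r ∧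
      EqOn ψ ψ' (ball 0 r)) : PN b g i ψ s := by
  have hev : ∀ u ∈ ball (0 : ℂ) s, ∃ (r : ℝ) (ψ' : ℂ → ℂ), u ∈ ball (0 : ℂ) r ∧ PN b g i ψ' r ∧
      ψ =ᶠ[𝓝 u] ψ' := by
    intro u hu
    obtain ⟨r, ψ', hur, hp, he⟩ := h u hu
    exact ⟨r, ψ', hur, hp, he.eventuallyEq_of_mem (isOpen_ball.mem_nhds hur)⟩
  have h0 : (0 : ℂ) ∈ ball (0 : ℂ) s := mem_ball_self hs
  refine ⟨hs, ?_, ?_, ?_, ?_, ?_⟩
  · intro u hu
    obtain ⟨r, ψ', hur, hp, he⟩ := hev u hu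
    exact ((hp.diff.differentiableAt (isOpen_ball.mem_nhds hur)).congr_of_eventuallyEq
      he).differentiableWithinAt
  · obtain ⟨r, ψ', hur, hp, he⟩ := hev 0 h0
    rw [he.self_of_nhds, hp.val]
  · obtain ⟨r, ψ', hur, hp, he⟩ := hev 0 h0
    rw [he.deriv_eq]
    exact hp.der
  · intro u hu hu0 j
    obtain ⟨r, ψ', hur, hp, he⟩ := hev u hu
    rw [he.self_of_nhds]
    exact hp.av u hur hu0 j
  · intro u hu hu0
    obtain ⟨r, ψ', hur, hp, he⟩ := hev u hu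
    rw [he.self_of_nhds, he.deriv_eq]
    exact hp.eq u hur hu0

theorem NM (hNP : NP_stmt) (hNH : NH_stmt) (hNLB : NLB_stmt) : NM_stmt := by
  intro k _ b g i hk hb
  let S : Set ℝ := {r | 0 < r ∧ ∃ ψ : ℂ → ℂ, PN b g i ψ r ∧ deriv ψ 0 = 1}
  have hne : S.Nonempty := by
    obtain ⟨r, hr, ψ, hp, hd⟩ := hNP k b g i hb
    exact ⟨r, hr, ψ, hp, hd⟩
  have hl : i + 1 ≠ i := by
    intro h
    have h1 : (1 : ZMod k) = 0 := by
      have h2 : i + 1 = i + 0 := by rw [h, add_zero]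
      exact add_left_cancel h2
    have h2 : ((1 : ℕ) : ZMod k) = 0 := by simpa using h1
    rw [ZMod.natCast_eq_zero_iff] at h2
    have h3 := Nat.le_of_dvd one_pos h2
    omega
  have hbd : BddAbove S := by
    refine ⟨8000 * ‖b i - b (i + 1)‖, ?_⟩
    rintro r ⟨hr, ψ, hp, hd⟩
    have := hNLB k b g i (i + 1) ψ r hb hl hp
    rw [hd, norm_one, one_mul] at this
    exact this
  set s := sSup S with hs
  have hs0 : 0 < s := by
    obtain ⟨r, hr⟩ := hne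
    exact lt_of_lt_of_le hr.1 (le_csSup hbd hr)
  have hex : ∀ r : ℝ, 0 < r → r < s → ∃ ψ : ℂ → ℂ, PN b g i ψ r ∧ deriv ψ 0 = 1 := by
    intro r hr hrs
    obtain ⟨r', ⟨hr', ψ, hp, hd⟩, hrr'⟩ := exists_lt_of_lt_csSup hne hrs
    exact ⟨ψ, (hNH k b g i ψ r' hp).2.2.2 r hr hrr'.le, hd⟩
  choose! Ψ hΨ hΨd using hex
  let ψs : ℂ → ℂ := fun u => Ψ ((‖u‖ + s) / 2) u
  have hagree : ∀ r : ℝ, 0 < r → r < s → EqOn ψs (Ψ r) (ball 0 r) := by
    intro r hr hrs u hu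
    rw [mem_ball_zero_iff] at hu
    have h1 : 0 < (‖u‖ + s) / 2 := by positivity
    have h2 : (‖u‖ + s) / 2 < s := by linarith
    have h3 := (hNH k b g i (Ψ ((‖u‖ + s) / 2)) _ (hΨ _ h1 h2)).2.2.1 (Ψ r) r (hΨ r hr hrs)
      (by rw [hΨd _ h1 h2, hΨd r hr hrs])
    refine h3 ?_
    rw [mem_ball_zero_iff, lt_min_iff]
    exact ⟨by linarith, hu⟩
  have hPs : PN b g i ψs s := by
    refine NM_congr hs0 ?_
    intro u hu
    rw [mem_ball_zero_iff] at hu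
    have h1 : 0 < (‖u‖ + s) / 2 := by positivity
    have h2 : (‖u‖ + s) / 2 < s := by linarith
    refine ⟨(‖u‖ + s) / 2, Ψ ((‖u‖ + s) / 2), ?_, hΨ _ h1 h2, hagree _ h1 h2⟩
    rw [mem_ball_zero_iff]
    linarith
  have hds : deriv ψs 0 = 1 := by
    have h1 : 0 < s / 2 := by positivity
    have h2 : s / 2 < s := by linarith
    have h3 : ψs =ᶠ[𝓝 0] Ψ (s / 2) :=
      (hagree _ h1 h2).eventuallyEq_of_mem (isOpen_ball.mem_nhds (mem_ball_self h1))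
    rw [h3.deriv_eq]
    exact hΨd _ h1 h2
  have hsc : (s : ℂ) ≠ 0 := by exact_mod_cast hs0.ne'
  have hnorm : ‖(s : ℂ)‖ = s := by rw [Complex.norm_real, Real.norm_of_nonneg hs0.le]
  have hd1 : deriv (fun u => ψs ((s : ℂ) * u)) 0 = s := by
    have h1 : HasDerivAt ψs (deriv ψs 0) 0 :=
      (hPs.diff.differentiableAt (isOpen_ball.mem_nhds (mem_ball_self hs0))).hasDerivAt
    have h2 : HasDerivAt (fun u : ℂ => (s : ℂ) * u) (s : ℂ) 0 := by
      simpa using (hasDerivAt_id (0 : ℂ)).const_mul (s : ℂ)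
    have h3 : HasDerivAt ψs (deriv ψs 0) ((s : ℂ) * 0) := by rw [mul_zero]; exact h1
    have h4 := h3.comp 0 h2
    have h5 := h4.deriv
    rw [hds, one_mul] at h5
    exact h5
  refine ⟨fun u => ψs ((s : ℂ) * u), ?_, ?_⟩
  · have h1 := (hNH k b g i ψs s hPs).2.1 (s : ℂ) hsc
    rw [hnorm, div_self hs0.ne'] at h1
    exact h1
  · intro r hr ψ' hp hd
    rw [hd1] at hd
    have h1 := (hNH k b g i ψ' r hp).2.1 ((s : ℂ)⁻¹) (inv_ne_zero hsc)
    rw [norm_inv, hnorm, div_inv_eq_mul] at h1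
    have hr0 : 0 < r := by linarith
    have h2 : deriv (fun u => ψ' ((s : ℂ)⁻¹ * u)) 0 = 1 := by
      have h3 : HasDerivAt ψ' (deriv ψ' 0) 0 :=
        (hp.diff.differentiableAt (isOpen_ball.mem_nhds (mem_ball_self hr0))).hasDerivAt
      have h4 : HasDerivAt (fun u : ℂ => (s : ℂ)⁻¹ * u) (s : ℂ)⁻¹ 0 := by
        simpa using (hasDerivAt_id (0 : ℂ)).const_mul (s : ℂ)⁻¹
      have h5 : HasDerivAt ψ' (deriv ψ' 0) ((s : ℂ)⁻¹ * 0) := by rw [mul_zero]; exact h3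
      have h6 := (h5.comp 0 h4).deriv
      rw [hd, mul_inv_cancel₀ hsc] at h6
      exact h6
    have h3 : r * s ∈ S := ⟨by positivity, _, h1, h2⟩
    have h4 : r * s ≤ s := le_csSup hbd h3
    nlinarith

end MPS
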